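import Mathlib

set_option autoImplicit false

open MeasureTheory Set Filter Topology
open scoped ENNReal NNReal

namespace Pool.Agent.Helper56K9.RM

/-- A function whose increments are bounded by the integrals of an integrable function is
absolutely continuous. -/
lemma ac_of_le {f g : ℝ → ℝ} {L : ℝ} (hL : 0 ≤ L) (hg : IntervalIntegrable g volume 0 L)
    (hfg : ∀ s t, 0 ≤ s → s ≤ t → t ≤ L → |f t - f s| ≤ ∫ x in s..t, g x) :
    AbsolutelyContinuousOnInterval f 0 L := by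
  have hH := hg.absolutelyContinuousOnInterval_intervalIntegral (c := 0) (by simp)
  rw [absolutelyContinuousOnInterval_iff] at hH ⊢
  have key : ∀ s ∈ Icc 0 L, ∀ t ∈ Icc 0 L, s ≤ t →
      dist (f s) (f t) ≤ dist (∫ v in (0:ℝ)..s, g v) (∫ v in (0:ℝ)..t, g v) := by
    intro s hs t ht hst
    have h1 := hfg s t hs.1 hst ht.2
    have h2 : ∫ x in s..t, g x = (∫ v in (0:ℝ)..t, g v) - ∫ v in (0:ℝ)..s, g v := by
      rw [intervalIntegral.integral_interval_sub_left]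
      · exact hg.mono_set (by rw [uIcc_of_le ht.1, uIcc_of_le hL]; exact Icc_subset_Icc le_rfl ht.2)
      · exact hg.mono_set (by rw [uIcc_of_le hs.1, uIcc_of_le hL]; exact Icc_subset_Icc le_rfl hs.2)
    rw [dist_comm, dist_comm (∫ v in (0:ℝ)..s, g v), Real.dist_eq, Real.dist_eq, ← h2]
    exact h1.trans (le_abs_self _)
  intro ε hε
  obtain ⟨δ, hδ, h⟩ := hH ε hε
  refine ⟨δ, hδ, fun E hE hsum =>
    lt_of_le_of_lt (Finset.sum_le_sum fun i hi => ?_) (h E hE hsum)⟩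
  have hm := hE.1 i hi
  rw [uIcc_of_le hL] at hm
  rcases le_total (E.2 i).1 (E.2 i).2 with h1 | h1
  · exact key _ hm.1 _ hm.2 h1
  · rw [dist_comm, dist_comm (∫ v in (0:ℝ).._, g v)]
    exact key _ hm.2 _ hm.1 h1

/-- The derivative of such a function. -/
lemma ae_deriv_le {f g : ℝ → ℝ} {L : ℝ} (hL : 0 ≤ L) (hg : IntervalIntegrable g volume 0 L)
    (hfg : ∀ s t, 0 ≤ s → s ≤ t → t ≤ L → |f t - f s| ≤ ∫ x in s..t, g x) :
    ∀ᵐ t, t ∈ Ioo 0 L → DifferentiableAt ℝ f t ∧ |deriv f t| ≤ g t := by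
  have hac := ac_of_le hL hg hfg
  filter_upwards [hac.ae_differentiableAt, hg.ae_hasDerivAt_integral] with t h1 h2 ht
  have htm : t ∈ uIcc 0 L := by rw [uIcc_of_le hL]; exact Ioo_subset_Icc_self ht
  refine ⟨h1 htm, ?_⟩
  have h3 := (h1 htm).hasDerivAt
  have h4 := h2 htm t htm
  rw [hasDerivAt_iff_tendsto_slope] at h3 h4
  have h5 : Tendsto (fun s => |slope f t s|) (𝓝[>] t) (𝓝 |deriv f t|) :=
    (h3.mono_left (nhdsWithin_mono _ (fun x hx => ne_of_gt hx))).abs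
  have h6 : Tendsto (slope (fun x => ∫ v in t..x, g v) t) (𝓝[>] t) (𝓝 (g t)) :=
    h4.mono_left (nhdsWithin_mono _ (fun x hx => ne_of_gt hx))
  refine le_of_tendsto_of_tendsto h5 h6 ?_
  have h7 : Ioo t L ∈ 𝓝[>] t := Ioo_mem_nhdsGT ht.2
  filter_upwards [h7] with s hs
  have h8 := hfg t s ht.1.le hs.1.le hs.2.le
  have h9 : 0 < s - t := sub_pos.2 hs.1
  simp only [slope_def_field, intervalIntegral.integral_same, sub_zero]
  rw [abs_div, abs_of_pos h9]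
  exact div_le_div_of_nonneg_right h8 h9.le

lemma countable_isolated (T : Set ℝ) : {t ∈ T | ¬ AccPt t (𝓟 T)}.Countable := by
  have h1 : ∀ t ∈ {t ∈ T | ¬ AccPt t (𝓟 T)}, ∃ pq : ℚ × ℚ, (pq.1 : ℝ) < t ∧ t < pq.2 ∧
      ∀ s ∈ T, (pq.1 : ℝ) < s → s < pq.2 → s = t := by
    rintro t ⟨htT, hacc⟩
    rw [accPt_iff_nhds] at hacc
    push Not at hacc
    obtain ⟨U, hU, hU2⟩ := hacc
    obtain ⟨ε, hε, hball⟩ := Metric.mem_nhds_iff.1 hU
    obtain ⟨p, hp1, hp2⟩ := exists_rat_btwn (show t - ε < t by linarith)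
    obtain ⟨q, hq1, hq2⟩ := exists_rat_btwn (show t < t + ε by linarith)
    refine ⟨(p, q), hp2, hq1, fun s hs h1 h2 => hU2 s ⟨hball ?_, hs⟩⟩
    rw [Metric.mem_ball, Real.dist_eq, abs_lt]
    constructor
    · simp only at h1; linarith
    · simp only at h2; linarith
  choose! φ hφ1 hφ2 hφ3 using h1
  refine MapsTo.countable_of_injOn (t := univ) (f := φ) (mapsTo_univ _ _) ?_ (to_countable _)
  intro t ht s hs hts
  refine hφ3 s hs t ht.1 ?_ ?_
  · rw [← hts]; exact hφ1 t ht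
  · rw [← hts]; exact hφ2 t ht

/-- Two functions which are equal on a set have the same derivative at almost all its points. -/
lemma ae_deriv_eq (f w : ℝ → ℝ) :
    ∀ᵐ t, w t = f t → DifferentiableAt ℝ f t → DifferentiableAt ℝ w t → deriv w t = deriv f t := by
  have h := (countable_isolated {t | w t = f t}).ae_notMem volume
  filter_upwards [h] with t ht hwt hf hw
  have hacc : AccPt t (𝓟 {t | w t = f t}) := by
    by_contra hcon
    exact ht ⟨hwt, hcon⟩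
  have hu : UniqueDiffWithinAt ℝ {t | w t = f t} t := uniqueDiffWithinAt_iff_accPt.2 hacc
  have h1 : HasDerivWithinAt w (deriv w t) {t | w t = f t} t := hw.hasDerivAt.hasDerivWithinAt
  have h2 : HasDerivWithinAt w (deriv f t) {t | w t = f t} t :=
    hf.hasDerivAt.hasDerivWithinAt.congr (fun x hx => hx) hwt
  exact UniqueDiffWithinAt.eq_deriv _ hu h1 h2

lemma ac_key {L : ℝ} (hL : 0 ≤ L) {f₁ f₂ w g₁ g₂ G : ℝ → ℝ}
    (hg₁ : IntervalIntegrable g₁ volume 0 L) (hg₂ : IntervalIntegrable g₂ volume 0 L)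
    (hG : IntervalIntegrable G volume 0 L)
    (hf₁ : ∀ s t, 0 ≤ s → s ≤ t → t ≤ L → |f₁ t - f₁ s| ≤ ∫ x in s..t, g₁ x)
    (hf₂ : ∀ s t, 0 ≤ s → s ≤ t → t ≤ L → |f₂ t - f₂ s| ≤ ∫ x in s..t, g₂ x)
    (hw : ∀ s t, 0 ≤ s → s ≤ t → t ≤ L → |w t - w s| ≤ ∫ x in s..t, (g₁ x + g₂ x))
    (h : ∀ᵐ t, t ∈ Ioo 0 L → (w t = f₁ t ∧ g₁ t ≤ G t) ∨ (w t = f₂ t ∧ g₂ t ≤ G t)) :
    w L - w 0 ≤ ∫ x in (0:ℝ)..L, G x := by
  have hac : AbsolutelyContinuousOnInterval w 0 L := ac_of_le hL (hg₁.add hg₂) hw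
  rw [← hac.integral_deriv_eq_sub]
  refine intervalIntegral.integral_mono_ae_restrict hL hac.intervalIntegrable_deriv hG ?_
  have h0 : ∀ᵐ t : ℝ, t ≠ 0 := by simp [ae_iff, measure_singleton]
  have h0L : ∀ᵐ t : ℝ, t ≠ L := by simp [ae_iff, measure_singleton]
  rw [EventuallyLE, ae_restrict_iff' measurableSet_Icc]
  filter_upwards [h, ae_deriv_le hL hg₁ hf₁, ae_deriv_le hL hg₂ hf₂,
    ae_deriv_le hL (hg₁.add hg₂) hw, ae_deriv_eq f₁ w, ae_deriv_eq f₂ w, h0, h0L]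
    with t h1 h2 h3 h4 h5 h6 h7 h8 ht
  have ht' : t ∈ Ioo 0 L := ⟨lt_of_le_of_ne ht.1 (Ne.symm h7), lt_of_le_of_ne ht.2 h8⟩
  rcases h1 ht' with ⟨ha, hb⟩ | ⟨ha, hb⟩
  · rw [h5 ha (h2 ht').1 (h4 ht').1]
    exact (le_abs_self _).trans ((h2 ht').2.trans hb)
  · rw [h6 ha (h3 ht').1 (h4 ht').1]
    exact (le_abs_self _).trans ((h3 ht').2.trans hb)

end Pool.Agent.Helper56K9.RM
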