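import Pool.Agent.Helper56K9.RM.Defs

set_option autoImplicit false

open MeasureTheory Set Filter Topology
open scoped ENNReal NNReal

namespace Pool.Agent.Helper56K9.RM

/-- A 1-Lipschitz map does not lower integrals. -/
lemma lintegral_push {f : ℝ → ℝ} {p q : ℝ} (hf : LipschitzOnWith 1 f (Icc p q)) {S : Set ℝ}
    (hSf : S ⊆ f '' Icc p q) {h : ℝ → ℝ≥0∞} (hh : Measurable h) :
    ∫⁻ r in S, h r ≤ ∫⁻ t in Icc p q, h (f t) := by
  have hfm : AEMeasurable f (volume.restrict (Icc p q)) :=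
    hf.continuousOn.aemeasurable measurableSet_Icc
  have hle : volume.restrict S ≤ Measure.map f (volume.restrict (Icc p q)) := by
    refine Measure.le_iff.2 fun T hT => ?_
    rw [Measure.restrict_apply hT, Measure.map_apply_of_aemeasurable hfm hT]
    have h1 : T ∩ S ⊆ f '' (f ⁻¹' T ∩ Icc p q) := by
      rintro x ⟨hxT, hxS⟩
      obtain ⟨t, ht, rfl⟩ := hSf hxS
      exact ⟨t, ⟨hxT, ht⟩, rfl⟩
    calc volume (T ∩ S) ≤ volume (f '' (f ⁻¹' T ∩ Icc p q)) := measure_mono h1
      _ ≤ volume (f ⁻¹' T ∩ Icc p q) := by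
          have := (hf.mono (inter_subset_right (s := f ⁻¹' T))).hausdorffMeasure_image_le
            (d := 1) zero_le_one
          simpa [hausdorffMeasure_real] using this
      _ ≤ _ := Measure.le_restrict_apply _ _
  calc ∫⁻ r in S, h r ≤ ∫⁻ r, h r ∂(Measure.map f (volume.restrict (Icc p q))) :=
        lintegral_mono' hle le_rfl
    _ = _ := lintegral_map' hh.aemeasurable hfm

lemma continuousOn_variation {n : ℕ} {g : ℝ → Sp n} {c d : ℝ} (hcd : c ≤ d)
    (hg : ContinuousOn g (Icc c d)) (hbv : LocallyBoundedVariationOn g (Icc c d)) :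
    ContinuousOn (variationOnFromTo g (Icc c d) c) (Icc c d) := by
  intro b hb
  have hc : c ∈ Icc c d := left_mem_Icc.2 hcd
  have h1 := variationOnFromTo.tendsto_left (a := c) (b := b) (l := g b) hc hb hbv
    ((hg b hb).mono_left (nhdsWithin_mono _ inter_subset_left))
  have h2 := variationOnFromTo.tendsto_right (a := c) (b := b) (l := g b) hc hb hbv
    ((hg b hb).mono_left (nhdsWithin_mono _ inter_subset_left))
  rw [dist_self, sub_zero] at h1
  rw [dist_self, add_zero] at h2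
  have h3 : ContinuousWithinAt (variationOnFromTo g (Icc c d) c)
      ((Icc c d ∩ Iio b) ∪ (Icc c d ∩ Ioi b) ∪ {b}) b := by
    refine ContinuousWithinAt.union (ContinuousWithinAt.union h1 h2) ?_
    exact continuousWithinAt_singleton
  refine h3.mono ?_
  intro x hx
  rcases lt_trichotomy x b with h | h | h
  · exact Or.inl (Or.inl ⟨hx, h⟩)
  · exact Or.inr h
  · exact Or.inl (Or.inr ⟨hx, h⟩)

/-- The parametrisation by arc length. -/
lemma exists_natural {n : ℕ} {g : ℝ → Sp n} {c d : ℝ} (hcd : c ≤ d)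
    (hg : ContinuousOn g (Icc c d)) (hv : eVariationOn g (Icc c d) ≠ ⊤) :
    ∃ (e : ℝ → Sp n) (ℓ : ℝ → ℝ), LipschitzWith 1 e ∧ MonotoneOn ℓ (Icc c d) ∧
      ContinuousOn ℓ (Icc c d) ∧ ℓ c = 0 ∧ 0 ≤ ℓ d ∧ (∀ t ∈ Icc c d, e (ℓ t) = g t) ∧
      (∀ s ∈ Icc c d, ∀ t ∈ Icc c d, s ≤ t → ℓ t - ℓ s = (eVariationOn g (Icc s t)).toReal) ∧
      ∀ ρ : Sp n → ℝ≥0∞, arcInt ρ g c d = ∫⁻ s in Icc 0 (ℓ d), ρ (e s) := by
  have hc : c ∈ Icc c d := left_mem_Icc.2 hcd
  have hd : d ∈ Icc c d := right_mem_Icc.2 hcd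
  have hbv : LocallyBoundedVariationOn g (Icc c d) := BoundedVariationOn.locallyBoundedVariationOn hv
  set ℓ := variationOnFromTo g (Icc c d) c with hℓ
  have hmono : MonotoneOn ℓ (Icc c d) := variationOnFromTo.monotoneOn hbv hc
  have hcont : ContinuousOn ℓ (Icc c d) := continuousOn_variation hcd hg hbv
  have h0 : ℓ c = 0 := variationOnFromTo.self _ _ _
  have hL : ℓ d = (eVariationOn g (Icc c d)).toReal := by
    rw [hℓ, variationOnFromTo.eq_of_le _ _ hcd, inter_self]
  have hL0 : 0 ≤ ℓ d := by rw [hL]; exact ENNReal.toReal_nonneg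
  have himg : Icc 0 (ℓ d) ⊆ ℓ '' Icc c d := by
    rw [← h0]; exact intermediate_value_Icc hcd hcont
  have hun := has_unit_speed_naturalParameterization g hbv hc
  set N := naturalParameterization g (Icc c d) c with hN
  have hNd : ∀ s ∈ Icc 0 (ℓ d), ∀ t ∈ Icc 0 (ℓ d), s ≤ t → dist (N s) (N t) ≤ t - s := by
    intro s hs t ht hst
    have h1 := hun (himg hs) (himg ht)
    have h2 : edist (N s) (N t) ≤ eVariationOn N (ℓ '' Icc c d ∩ Icc s t) :=
      eVariationOn.edist_le N ⟨himg hs, le_rfl, hst⟩ ⟨himg ht, hst, le_rfl⟩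
    rw [h1, NNReal.coe_one, one_mul, edist_dist] at h2
    exact (ENNReal.ofReal_le_ofReal_iff (by linarith)).1 h2
  refine ⟨fun s => N (max 0 (min s (ℓ d))), ℓ, ?_, hmono, hcont, h0, hL0, ?_, ?_, ?_⟩
  · refine LipschitzWith.mk_one fun s t => ?_
    have hmem : ∀ s, max 0 (min s (ℓ d)) ∈ Icc 0 (ℓ d) := fun s =>
      ⟨le_max_left _ _, max_le hL0 (min_le_right _ _)⟩
    rcases le_total s t with h | h
    · have h1 : max 0 (min s (ℓ d)) ≤ max 0 (min t (ℓ d)) := by gcongr
      have h2 := hNd _ (hmem s) _ (hmem t) h1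
      refine h2.trans ?_
      rw [Real.dist_eq, abs_sub_comm, abs_of_nonneg (by linarith)]
      simp only [max_def, min_def]
      split_ifs <;> linarith
    · have h1 : max 0 (min t (ℓ d)) ≤ max 0 (min s (ℓ d)) := by gcongr
      have h2 := hNd _ (hmem t) _ (hmem s) h1
      rw [dist_comm]
      refine h2.trans ?_
      rw [Real.dist_eq, abs_of_nonneg (by linarith)]
      simp only [max_def, min_def]
      split_ifs <;> linarith
  · intro t ht
    have h1 : 0 ≤ ℓ t := by rw [← h0]; exact hmono hc ht ht.1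
    have h2 : ℓ t ≤ ℓ d := hmono ht hd ht.2
    simp only [min_eq_left h2, max_eq_right h1]
    exact edist_eq_zero.1 (edist_naturalParameterization_eq_zero hbv hc ht)
  · intro s hs t ht hst
    have h1 := variationOnFromTo.add hbv hc hs ht
    have h2 : ℓ t - ℓ s = variationOnFromTo g (Icc c d) s t := by rw [hℓ]; linarith
    rw [h2, variationOnFromTo.eq_of_le _ _ hst]
    congr 2
    ext x
    constructor
    · exact fun hx => hx.2
    · exact fun hx => ⟨⟨hs.1.trans hx.1, hx.2.trans ht.2⟩, hx⟩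
  · intro ρ
    unfold arcInt
    rw [← hL]
    refine setLIntegral_congr_fun measurableSet_Icc fun s hs => ?_
    simp only [min_eq_left hs.2, max_eq_right hs.1]
    rfl

lemma lip_variation {n : ℕ} {g : ℝ → Sp n} {c d : ℝ} (hg : LipschitzOnWith 1 g (Icc c d))
    {s t : ℝ} (hs : s ∈ Icc c d) (ht : t ∈ Icc c d) (hst : s ≤ t) :
    eVariationOn g (Icc s t) ≤ ENNReal.ofReal (t - s) := by
  have h1 : eVariationOn g (Icc s t) ≤ (1 : ℝ≥0) * eVariationOn (id : ℝ → ℝ) (Icc s t) := by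
    have := (LipschitzOnWith.comp_eVariationOn_le (f := g) (g := (id : ℝ → ℝ)) (s := Icc s t)
      (t := Icc c d) hg (fun x hx => ⟨hs.1.trans hx.1, hx.2.trans ht.2⟩))
    simpa using this
  refine h1.trans ?_
  rw [ENNReal.coe_one, one_mul]
  have := (monotoneOn_id (s := Icc s t)).eVariationOn_le (left_mem_Icc.2 hst) (right_mem_Icc.2 hst)
  simpa using this

/-- For a 1-Lipschitz curve the line integral is at most the integral over the parameter. -/
lemma arcInt_le {n : ℕ} {g : ℝ → Sp n} {c d : ℝ} (hcd : c ≤ d) (hg : LipschitzOnWith 1 g (Icc c d))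
    {ρ : Sp n → ℝ≥0∞} (hρ : Measurable ρ) :
    arcInt ρ g c d ≤ ∫⁻ t in Icc c d, ρ (g t) := by
  have hv : eVariationOn g (Icc c d) ≠ ⊤ := by
    have := lip_variation hg (left_mem_Icc.2 hcd) (right_mem_Icc.2 hcd) hcd
    exact ne_top_of_le_ne_top ENNReal.ofReal_ne_top this
  obtain ⟨e, ℓ, he, hmono, hcont, h0, hL0, heq, hvar, hint⟩ := exists_natural hcd hg.continuousOn hv
  rw [hint ρ]
  have hℓ : LipschitzOnWith 1 ℓ (Icc c d) := by
    refine LipschitzOnWith.of_dist_le_mul fun s hs t ht => ?_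
    rw [NNReal.coe_one, one_mul]
    rcases le_total s t with h | h
    · rw [dist_comm, dist_comm s t, Real.dist_eq, Real.dist_eq, abs_of_nonneg (by linarith [hmono hs ht h]),
        abs_of_nonneg (by linarith), hvar s hs t ht h]
      exact ENNReal.toReal_le_of_le_ofReal (by linarith) (lip_variation hg hs ht h)
    · rw [Real.dist_eq, Real.dist_eq, abs_of_nonneg (by linarith [hmono ht hs h]),
        abs_of_nonneg (by linarith), hvar t ht s hs h]
      exact ENNReal.toReal_le_of_le_ofReal (by linarith) (lip_variation hg ht hs h)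
  have himg : Icc 0 (ℓ d) ⊆ ℓ '' Icc c d := by
    rw [← h0]; exact intermediate_value_Icc hcd hcont
  refine (lintegral_push hℓ himg (hρ.comp he.continuous.measurable)).trans (le_of_eq ?_)
  refine setLIntegral_congr_fun measurableSet_Icc fun t ht => ?_
  simp only [Function.comp_apply, heq t ht]

/-- Admissible functions and 1-Lipschitz curves. -/
lemma admissible_lip {n : ℕ} {A B : Set (Sp n)} {ρ : Sp n → ℝ≥0∞}
    (hρ : Admissible (joining (toInf A) (toInf B)) ρ) {e : ℝ → Sp n} (he : LipschitzWith 1 e)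
    {L : ℝ} (hL : 0 ≤ L) (hA : e 0 ∈ A) (hB : e L ∈ B) : 1 ≤ ∫⁻ s in Icc 0 L, ρ (e s) := by
  let γ : Curve n := ⟨0, L, hL, fun t => (e t : SpInf n),
    (OnePoint.continuous_coe.comp he.continuous).continuousOn⟩
  have hγ : γ ∈ joining (toInf A) (toInf B) := ⟨⟨_, hA, rfl⟩, ⟨_, hB, rfl⟩⟩
  have hsub : ∀ (g : ℝ → Sp n) (c d : ℝ), γ.IsSub g c d → 0 ≤ c ∧ c ≤ d ∧ d ≤ L ∧
      ∀ t ∈ Icc c d, g t = e t := by
    rintro g c d ⟨h1, h2, h3, h4⟩
    exact ⟨h1, h2, h3, fun t ht => (OnePoint.coe_injective (h4 t ht)).symm⟩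
  have hlip : ∀ (g : ℝ → Sp n) (c d : ℝ), γ.IsSub g c d → LipschitzOnWith 1 g (Icc c d) := by
    intro g c d h
    obtain ⟨_, _, _, h4⟩ := hsub g c d h
    intro x hx y hy
    rw [h4 x hx, h4 y hy]
    exact he x y
  have hrect : γ.LocRect := by
    intro g c d h
    have h2 := (hsub g c d h).2.1
    have := lip_variation (hlip g c d h) (left_mem_Icc.2 h2) (right_mem_Icc.2 h2) h2
    exact ne_top_of_le_ne_top ENNReal.ofReal_ne_top this
  refine (hρ.2 γ hγ hrect).trans ?_
  refine iSup_le fun g => iSup_le fun c => iSup_le fun d => iSup_le fun h => ?_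
  obtain ⟨h1, h2, h3, h4⟩ := hsub g c d h
  refine (arcInt_le h2 (hlip g c d h) hρ.1).trans ?_
  rw [setLIntegral_congr_fun measurableSet_Icc fun t ht => by rw [h4 t ht]]
  exact lintegral_mono_set (Icc_subset_Icc h1 h3)

end Pool.Agent.Helper56K9.RM
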