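import Mathlib

set_option autoImplicit false

/-!
# The modulus of curve families in `ℝⁿ ∪ {∞}`
-/

open MeasureTheory Set
open scoped ENNReal

namespace Pool.Agent.Helper56K9.RM

/-- Euclidean space `ℝⁿ`. -/
abbrev Sp (n : ℕ) : Type := EuclideanSpace ℝ (Fin n)

/-- The one point compactification `ℝⁿ ∪ {∞}`. -/
abbrev SpInf (n : ℕ) : Type := OnePoint (Sp n)

/-- A subset of `ℝⁿ` as a subset of `ℝⁿ ∪ {∞}`. -/
def toInf {n : ℕ} (A : Set (Sp n)) : Set (SpInf n) := (fun x : Sp n => (x : SpInf n)) '' A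

/-- A curve in `ℝⁿ ∪ {∞}`: a continuous map `[a, b] → ℝⁿ ∪ {∞}`, `a ≤ b`. The values of the
function outside `[a, b]` play no role. -/
structure Curve (n : ℕ) where
  a : ℝ
  b : ℝ
  le : a ≤ b
  toFun : ℝ → SpInf n
  cont : ContinuousOn toFun (Icc a b)

/-- `g : [c, d] → ℝⁿ` is a closed subcurve of `γ` in `ℝⁿ`: the restriction of `γ` to an interval
`[c, d] ⊆ [a, b]` on which `γ` does not take the value `∞`. -/
def Curve.IsSub {n : ℕ} (γ : Curve n) (g : ℝ → Sp n) (c d : ℝ) : Prop :=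
  γ.a ≤ c ∧ c ≤ d ∧ d ≤ γ.b ∧ ∀ t ∈ Icc c d, γ.toFun t = (g t : SpInf n)

/-- `γ` is locally rectifiable: all its closed subcurves in `ℝⁿ` have finite length (total
variation). For a curve in `ℝⁿ` this says that it is rectifiable. -/
def Curve.LocRect {n : ℕ} (γ : Curve n) : Prop :=
  ∀ (g : ℝ → Sp n) (c d : ℝ), γ.IsSub g c d → eVariationOn g (Icc c d) ≠ ⊤

/-- The line integral `∫_g ρ ds` of a function `ρ` over a rectifiable curve `g : [c, d] → ℝⁿ`: the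
integral `∫_0^ℓ ρ(g°(s)) ds`, where `ℓ` is the length and `g° : [0, ℓ] → ℝⁿ` the parametrisation of `g` by
arc length (`naturalParameterization` of Mathlib). -/
noncomputable def arcInt {n : ℕ} (ρ : Sp n → ℝ≥0∞) (g : ℝ → Sp n) (c d : ℝ) : ℝ≥0∞ :=
  ∫⁻ s in Icc 0 (eVariationOn g (Icc c d)).toReal, ρ (naturalParameterization g (Icc c d) c s)

/-- The line integral `∫_γ ρ ds` over a locally rectifiable curve: the supremum of the line
integrals over its closed subcurves in `ℝⁿ`. For a curve in `ℝⁿ` this is the line integral over the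
curve itself. -/
noncomputable def Curve.lineInt {n : ℕ} (ρ : Sp n → ℝ≥0∞) (γ : Curve n) : ℝ≥0∞ :=
  ⨆ (g : ℝ → Sp n) (c : ℝ) (d : ℝ) (_ : γ.IsSub g c d), arcInt ρ g c d

/-- `ρ : ℝⁿ → [0, ∞]` is admissible for the curve family `Γ`: it is Borel, and `∫_γ ρ ds ≥ 1` for all
locally rectifiable `γ ∈ Γ`. -/
def Admissible {n : ℕ} (Γ : Set (Curve n)) (ρ : Sp n → ℝ≥0∞) : Prop :=
  Measurable ρ ∧ ∀ γ ∈ Γ, γ.LocRect → 1 ≤ γ.lineInt ρ

/-- The `n`-modulus `M(Γ) = inf_ρ ∫ ρⁿ dm` over all admissible `ρ`. -/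
noncomputable def modulus {n : ℕ} (Γ : Set (Curve n)) : ℝ≥0∞ :=
  ⨅ (ρ : Sp n → ℝ≥0∞) (_ : Admissible Γ ρ), ∫⁻ x, ρ x ^ n

/-- `Δ(A, B)`: the family of all curves in `ℝⁿ ∪ {∞}` joining `A` and `B`. -/
def joining {n : ℕ} (A B : Set (SpInf n)) : Set (Curve n) :=
  {γ | γ.toFun γ.a ∈ A ∧ γ.toFun γ.b ∈ B}

/-- The reflection `(x_1, …, x_{n-1}, x_n) ↦ (x_1, …, x_{n-1}, -x_n)`, `n = k + 2`. -/
noncomputable def refl {k : ℕ} (x : Sp (k + 2)) : Sp (k + 2) :=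
  WithLp.toLp 2 (Function.update x.ofLp (Fin.last (k + 1)) (-x.ofLp (Fin.last (k + 1))))

end Pool.Agent.Helper56K9.RM
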