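import Pool.Agent.Helper56K9.RM.Arc

set_option autoImplicit false

open MeasureTheory Set Filter Topology
open scoped ENNReal NNReal

namespace Pool.Agent.Helper56K9.RM

/-- `1 / ((m + 1) 2 ^ m)` for `2 ^ m ≤ r < 2 ^ (m + 1)`. -/
noncomputable def wt (r : ℝ) : ℝ≥0∞ :=
  ENNReal.ofReal (1 / ((Nat.log 2 ⌊r⌋₊ + 1) * 2 ^ (Nat.log 2 ⌊r⌋₊)))

lemma measurable_wt : Measurable wt := by
  have h1 : Measurable (fun m : ℕ => ENNReal.ofReal (1 / (((Nat.log 2 m : ℕ) + 1) * 2 ^ (Nat.log 2 m)) : ℝ)) :=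
    measurable_from_top
  exact h1.comp (Nat.measurable_floor (R := ℝ))

/-- The function `wt ‖x‖` is in `Lⁿ`. -/
lemma lintegral_wt (k : ℕ) : ∫⁻ x : Sp (k + 2), wt ‖x‖ ^ (k + 2) ≠ ⊤ := by
  set V : ℝ≥0∞ := volume (Metric.ball (0 : Sp (k + 2)) 1) with hV
  have hVt : V ≠ ⊤ := measure_ball_lt_top.ne
  have hball : ∀ m : ℕ, volume (Metric.ball (0 : Sp (k + 2)) (2 ^ (m + 1))) =
      ENNReal.ofReal ((2 ^ (m + 1)) ^ (k + 2)) * V := by
    intro m
    have := Measure.addHaar_ball (volume : Measure (Sp (k + 2))) (0 : Sp (k + 2))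
      (r := 2 ^ (m + 1)) (by positivity)
    rw [this]
    simp [hV]
  have hpt : ∀ x : Sp (k + 2), wt ‖x‖ ^ (k + 2) ≤
      ∑' m : ℕ, (Metric.ball (0 : Sp (k + 2)) (2 ^ (m + 1))).indicator
        (fun _ => ENNReal.ofReal (1 / ((m + 1) * 2 ^ m)) ^ (k + 2)) x := by
    intro x
    set m := Nat.log 2 ⌊‖x‖⌋₊ with hm
    refine le_trans ?_ (ENNReal.le_tsum m)
    have hx : x ∈ Metric.ball (0 : Sp (k + 2)) (2 ^ (m + 1)) := by
      rw [mem_ball_zero_iff]
      have h1 : ⌊‖x‖⌋₊ < 2 ^ (m + 1) := Nat.lt_pow_succ_log_self (by norm_num) _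
      have h2 := (Nat.floor_lt (norm_nonneg x)).1 h1
      exact_mod_cast h2
    rw [indicator_of_mem hx, wt, ← hm]
  refine ne_top_of_le_ne_top ?_ (lintegral_mono hpt)
  rw [lintegral_tsum (fun m => (measurable_const.indicator measurableSet_ball).aemeasurable)]
  have hterm : ∀ m : ℕ, ∫⁻ x : Sp (k + 2), (Metric.ball (0 : Sp (k + 2)) (2 ^ (m + 1))).indicator
        (fun _ => ENNReal.ofReal (1 / ((m + 1) * 2 ^ m)) ^ (k + 2)) x ≤
      ENNReal.ofReal (1 / ((m : ℝ) + 1) ^ 2) * (ENNReal.ofReal (2 ^ (k + 2)) * V) := by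
    intro m
    rw [lintegral_indicator measurableSet_ball, setLIntegral_const, hball,
      ← ENNReal.ofReal_pow (by positivity), ← mul_assoc, ← mul_assoc,
      ← ENNReal.ofReal_mul (by positivity), ← ENNReal.ofReal_mul (by positivity)]
    refine mul_le_mul' (ENNReal.ofReal_le_ofReal ?_) le_rfl
    have h1 : (1 / (((m : ℝ) + 1) * 2 ^ m)) ^ (k + 2) * (2 ^ (m + 1)) ^ (k + 2) =
        1 / ((m : ℝ) + 1) ^ (k + 2) * 2 ^ (k + 2) := by
      rw [div_pow, mul_pow, pow_succ 2 m, mul_pow, one_pow]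
      field_simp
    rw [h1]
    gcongr
    · have : (1 : ℝ) ≤ (m : ℝ) + 1 := by linarith [(Nat.cast_nonneg m : (0 : ℝ) ≤ m)]
      exact this
    · omega
  refine ne_top_of_le_ne_top ?_ (ENNReal.tsum_le_tsum hterm)
  rw [ENNReal.tsum_mul_right]
  refine ENNReal.mul_ne_top ?_ (ENNReal.mul_ne_top ENNReal.ofReal_ne_top hVt)
  have hs : Summable (fun m : ℕ => 1 / ((m : ℝ) + 1) ^ 2) := by
    have := (summable_nat_add_iff 1).2 (Real.summable_one_div_nat_pow.2 (one_lt_two))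
    simpa using this
  exact hs.tsum_ofReal_ne_top

/-- The integrals of `wt` diverge. -/
lemma wt_div (a : ℝ) (K : ℝ≥0∞) (hK : K ≠ ⊤) : ∃ R : ℝ, a ≤ R ∧ K ≤ ∫⁻ r in Icc a R, wt r := by
  obtain ⟨M, hM⟩ := pow_unbounded_of_one_lt a (one_lt_two)
  have hdiv : ¬ Summable (fun m : ℕ => 1 / ((m + M : ℕ) + 1 : ℝ)) := by
    intro h
    have h1 := (summable_nat_add_iff (f := fun m : ℕ => 1 / ((m : ℝ) + 1)) M).1 h
    have h2 := (summable_nat_add_iff (f := fun m : ℕ => 1 / (m : ℝ)) 1).1 (by simpa using h1)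
    exact Real.not_summable_one_div_natCast h2
  have htend := (not_summable_iff_tendsto_nat_atTop_of_nonneg (fun m => by positivity)).1 hdiv
  obtain ⟨N, hN⟩ := (htend.eventually_ge_atTop K.toReal).exists
  have hsub : ∀ N : ℕ, ENNReal.ofReal (∑ m ∈ Finset.range N, 1 / ((m + M : ℕ) + 1 : ℝ)) ≤
      ∫⁻ r in Ico (2 ^ M) (2 ^ (M + N)), wt r := by
    intro N
    induction N with
    | zero => simp
    | succ N ih =>
      rw [Finset.sum_range_succ, ENNReal.ofReal_add (Finset.sum_nonneg fun _ _ => by positivity)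
        (by positivity)]
      have h1 : Ico ((2 : ℝ) ^ M) (2 ^ (M + (N + 1))) =
          Ico (2 ^ M) (2 ^ (M + N)) ∪ Ico (2 ^ (M + N)) (2 ^ (M + (N + 1))) := by
        rw [Ico_union_Ico_eq_Ico]
        · exact pow_le_pow_right₀ (by norm_num) (by omega)
        · exact pow_le_pow_right₀ (by norm_num) (by omega)
      rw [h1, lintegral_union measurableSet_Ico (by
        rw [Set.disjoint_left]
        intro x hx hx'
        exact absurd hx.2 (not_lt.2 hx'.1))]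
      refine add_le_add ih ?_
      have h2 : ∀ r ∈ Ico ((2 : ℝ) ^ (M + N)) (2 ^ (M + (N + 1))),
          ENNReal.ofReal (1 / (((M + N : ℕ) + 1) * 2 ^ (M + N))) = wt r := by
        intro r hr
        have h0 : 0 ≤ r := le_trans (by positivity) hr.1
        have h3 : Nat.log 2 ⌊r⌋₊ = M + N := by
          have hf1 : 2 ^ (M + N) ≤ ⌊r⌋₊ := Nat.le_floor (by exact_mod_cast hr.1)
          have hf2 : ⌊r⌋₊ < 2 ^ (M + N + 1) := (Nat.floor_lt h0).2 (by exact_mod_cast hr.2)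
          exact (Nat.log_eq_iff (Or.inr ⟨by norm_num, by
            have : 0 < 2 ^ (M + N) := by positivity
            omega⟩)).2 ⟨hf1, hf2⟩
        rw [wt, h3]
      rw [← setLIntegral_congr_fun measurableSet_Ico h2, setLIntegral_const, Real.volume_Ico,
        ← ENNReal.ofReal_mul (by positivity)]
      refine ENNReal.ofReal_le_ofReal (le_of_eq ?_)
      have h4 : (2 : ℝ) ^ (M + (N + 1)) - 2 ^ (M + N) = 2 ^ (M + N) := by
        rw [← add_assoc, pow_succ]; ring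
      rw [h4]
      have h5 : ((N + M : ℕ) : ℝ) = ((M + N : ℕ) : ℝ) := by rw [add_comm]
      rw [h5]
      field_simp
  refine ⟨2 ^ (M + N), ?_, ?_⟩
  · exact hM.le.trans (pow_le_pow_right₀ (by norm_num) (by omega))
  · calc K = ENNReal.ofReal K.toReal := (ENNReal.ofReal_toReal hK).symm
      _ ≤ ENNReal.ofReal (∑ m ∈ Finset.range N, 1 / ((m + M : ℕ) + 1 : ℝ)) :=
          ENNReal.ofReal_le_ofReal hN
      _ ≤ _ := hsub N
      _ ≤ _ := lintegral_mono_set (show Ico ((2 : ℝ) ^ M) (2 ^ (M + N)) ⊆ Icc a (2 ^ (M + N)) from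
          fun x hx => ⟨hM.le.trans hx.1, hx.2.le⟩)

/-- Long curves have large integrals. -/
lemma wt_curve {n : ℕ} {e : ℝ → Sp n} (he : LipschitzWith 1 e) {L : ℝ} (hL : 0 ≤ L) :
    ∫⁻ r in Icc ‖e 0‖ ‖e L‖, wt r ≤ ∫⁻ s in Icc 0 L, wt ‖e s‖ := by
  have h1 : LipschitzWith 1 (fun s => ‖e s‖) := by
    have := lipschitzWith_one_norm.comp he
    simpa [Function.comp_def] using this
  have h2 : Icc ‖e 0‖ ‖e L‖ ⊆ (fun s => ‖e s‖) '' Icc 0 L :=
    intermediate_value_Icc hL h1.continuous.continuousOn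
  exact lintegral_push (h1.lipschitzOnWith) h2 measurable_wt

/-- A sufficient condition for admissibility. -/
lemma admissible_of_lip {n : ℕ} {A B : Set (Sp n)} {ρ : Sp n → ℝ≥0∞} (hρ : Measurable ρ)
    (h1 : ∀ (e : ℝ → Sp n) (L : ℝ), LipschitzWith 1 e → 0 ≤ L → e 0 ∈ A → e L ∈ B →
      1 ≤ ∫⁻ s in Icc 0 L, ρ (e s))
    (h2 : ∀ x : Sp n, ∃ R : ℝ, ∀ (e : ℝ → Sp n) (L : ℝ), LipschitzWith 1 e → 0 ≤ L → e 0 = x →
      R ≤ ‖e L‖ → 1 ≤ ∫⁻ s in Icc 0 L, ρ (e s)) :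
    Admissible (joining (toInf A) (toInf B)) ρ := by
  refine ⟨hρ, fun γ hγ hrect => ?_⟩
  obtain ⟨⟨xa, hxa, hxa'⟩, ⟨xb, hxb, hxb'⟩⟩ := hγ
  -- a retraction of `ℝⁿ ∪ {∞}` to `ℝⁿ`
  let π : SpInf n → Sp n := fun z => OnePoint.elim z (0 : Sp n) id
  have hπ : ∀ x : Sp n, π (x : SpInf n) = x := fun x => rfl
  have hcoe : ∀ z : SpInf n, z ≠ OnePoint.infty → ((π z : Sp n) : SpInf n) = z := by
    intro z hz
    obtain ⟨y, rfl⟩ := OnePoint.ne_infty_iff_exists.1 hz
    rfl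
  have hπc : ∀ z : SpInf n, z ≠ OnePoint.infty → ContinuousAt π z := by
    intro z hz
    obtain ⟨y, rfl⟩ := OnePoint.ne_infty_iff_exists.1 hz
    rw [OnePoint.continuousAt_coe]
    exact continuousAt_id
  -- the arc up to `d`
  have harc : ∀ d, γ.a ≤ d → d ≤ γ.b → (∀ t ∈ Icc γ.a d, γ.toFun t ≠ OnePoint.infty) →
      ∃ (e : ℝ → Sp n) (L : ℝ), LipschitzWith 1 e ∧ 0 ≤ L ∧ e 0 = xa ∧ e L = π (γ.toFun d) ∧
        ∫⁻ s in Icc 0 L, ρ (e s) ≤ γ.lineInt ρ := by
    intro d had hdb hfin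
    have hsub : γ.IsSub (fun t => π (γ.toFun t)) γ.a d :=
      ⟨le_rfl, had, hdb, fun t ht => (hcoe _ (hfin t ht)).symm⟩
    have hcont : ContinuousOn (fun t => π (γ.toFun t)) (Icc γ.a d) := by
      intro t ht
      refine ContinuousAt.comp_continuousWithinAt (hπc _ (hfin t ht)) ?_
      exact (γ.cont t ⟨ht.1, ht.2.trans hdb⟩).mono (Icc_subset_Icc le_rfl hdb)
    obtain ⟨e, ℓ, he, hmono, hc, h0, hL0, heq, hvar, hint⟩ :=
      exists_natural had hcont (hrect _ _ _ hsub)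
    refine ⟨e, ℓ d, he, hL0, ?_, heq d (right_mem_Icc.2 had), ?_⟩
    · rw [← h0, heq _ (left_mem_Icc.2 had), ← hxa', hπ]
    · rw [← hint ρ]
      unfold Curve.lineInt
      exact le_iSup_of_le _ (le_iSup_of_le _ (le_iSup_of_le _ (le_iSup_of_le hsub le_rfl)))
  by_cases hinf : ∀ t ∈ Icc γ.a γ.b, γ.toFun t ≠ OnePoint.infty
  · obtain ⟨e, L, he, hL, he0, heL, hle⟩ := harc γ.b γ.le le_rfl hinf
    refine (h1 e L he hL (by rw [he0]; exact hxa) ?_).trans hle
    rw [heL, ← hxb', hπ]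
    exact hxb
  · push Not at hinf
    obtain ⟨R, hR⟩ := h2 xa
    -- the first time at infinity
    let T : Set ℝ := {t ∈ Icc γ.a γ.b | γ.toFun t = OnePoint.infty}
    have hTne : T.Nonempty := by
      obtain ⟨t, ht, ht'⟩ := hinf
      exact ⟨t, ht, ht'⟩
    have hTcl : IsClosed T := by
      have : T = Icc γ.a γ.b ∩ γ.toFun ⁻¹' {OnePoint.infty} := rfl
      rw [this]
      exact γ.cont.preimage_isClosed_of_isClosed isClosed_Icc isClosed_singleton
    have hTbd : BddBelow T := ⟨γ.a, fun t ht => ht.1.1⟩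
    set t0 := sInf T with ht0
    have ht0T : t0 ∈ T := hTcl.csInf_mem hTne hTbd
    have hat0 : γ.a < t0 := by
      refine lt_of_le_of_ne ht0T.1.1 ?_
      intro h
      have := ht0T.2
      rw [← h, ← hxa'] at this
      exact OnePoint.coe_ne_infty _ this
    have hbefore : ∀ t, γ.a ≤ t → t < t0 → γ.toFun t ≠ OnePoint.infty := by
      intro t hat htt0 h
      have : t0 ≤ t := csInf_le hTbd ⟨⟨hat, (htt0.trans_le ht0T.1.2).le⟩, h⟩
      exact absurd htt0 (not_lt.2 this)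
    -- the norms tend to infinity
    have hlim : Tendsto γ.toFun (𝓝[Ico γ.a t0] t0) (𝓝 (OnePoint.infty : SpInf n)) := by
      have := γ.cont t0 ht0T.1
      rw [ContinuousWithinAt, ht0T.2] at this
      exact this.mono_left (nhdsWithin_mono _ (fun x hx => ⟨hx.1, (hx.2.trans_le ht0T.1.2).le⟩))
    have hopen : {z : SpInf n | z = OnePoint.infty ∨ ∃ x : Sp n, z = x ∧ R ≤ ‖x‖} ∈
        𝓝 (OnePoint.infty : SpInf n) := by
      have hK : IsCompact (Metric.closedBall (0 : Sp n) R) := isCompact_closedBall _ _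
      have := OnePoint.isOpen_compl_image_coe.2 ⟨hK.isClosed, hK⟩
      refine mem_of_superset (this.mem_nhds (by
        intro h
        obtain ⟨x, _, hx⟩ := h
        exact OnePoint.coe_ne_infty _ hx)) ?_
      intro z hz
      rcases eq_or_ne z OnePoint.infty with h | h
      · exact Or.inl h
      · obtain ⟨y, rfl⟩ := OnePoint.ne_infty_iff_exists.1 h
        refine Or.inr ⟨y, rfl, ?_⟩
        by_contra hcon
        push Not at hcon
        exact hz ⟨y, by rw [mem_closedBall_zero_iff]; exact hcon.le, rfl⟩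
    have hev := hlim.eventually hopen
    have hne : (𝓝[Ico γ.a t0] t0).NeBot := by
      rw [← mem_closure_iff_nhdsWithin_neBot, closure_Ico hat0.ne]
      exact right_mem_Icc.2 hat0.le
    obtain ⟨d, hd1, hd2⟩ := (hev.and self_mem_nhdsWithin).exists
    obtain ⟨e, L, he, hL, he0, heL, hle⟩ := harc d hd2.1 (hd2.2.le.trans ht0T.1.2)
      (fun t ht => hbefore t ht.1 (ht.2.trans_lt hd2.2))
    refine (hR e L he hL he0 ?_).trans hle
    rcases hd1 with h | ⟨x, hx, hxR⟩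
    · exact absurd h (hbefore d hd2.1 hd2.2)
    · rw [heL, hx, hπ]; exact hxR

end Pool.Agent.Helper56K9.RM
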