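import Pool.Agent.Helper56K9.RM.Defs
import Pool.Agent.H894R3.Ana

set_option autoImplicit false

open MeasureTheory Set Filter Topology
open scoped ENNReal NNReal

namespace Pool.Agent.Helper56K9.RM

/-- The potential: the infimum of the integrals of `ρ` over the 1-Lipschitz curves from `A` to
`x`. -/
noncomputable def pot {n : ℕ} (ρ : Sp n → ℝ≥0∞) (A : Set (Sp n)) (x : Sp n) : ℝ≥0∞ :=
  ⨅ (e : ℝ → Sp n) (L : ℝ) (_ : LipschitzWith 1 e ∧ 0 ≤ L ∧ e 0 ∈ A ∧ e L = x),
    ∫⁻ s in Icc 0 L, ρ (e s)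

lemma pot_lt_iff {n : ℕ} {ρ : Sp n → ℝ≥0∞} {A : Set (Sp n)} {x : Sp n} {q : ℝ≥0∞} :
    pot ρ A x < q ↔ ∃ (e : ℝ → Sp n) (L : ℝ), (LipschitzWith 1 e ∧ 0 ≤ L ∧ e 0 ∈ A ∧ e L = x) ∧
      ∫⁻ s in Icc 0 L, ρ (e s) < q := by
  unfold pot
  simp only [iInf_lt_iff, exists_prop]

lemma pot_le {n : ℕ} {ρ : Sp n → ℝ≥0∞} {A : Set (Sp n)} {e : ℝ → Sp n} {L : ℝ}
    (he : LipschitzWith 1 e) (hL : 0 ≤ L) (hA : e 0 ∈ A) :
    pot ρ A (e L) ≤ ∫⁻ s in Icc 0 L, ρ (e s) :=
  (iInf_le _ e).trans ((iInf_le _ L).trans (iInf_le _ ⟨he, hL, hA, rfl⟩))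

lemma pot_eq_zero {n : ℕ} {ρ : Sp n → ℝ≥0∞} {A : Set (Sp n)} {x : Sp n} (hx : x ∈ A) :
    pot ρ A x = 0 := by
  have := pot_le (ρ := ρ) (A := A) (e := fun _ => x) (L := 0)
    (LipschitzWith.const' x |>.weaken zero_le_one) le_rfl hx
  simpa using this

lemma lintegral_shift {f : ℝ → ℝ≥0∞} {a b c : ℝ} :
    ∫⁻ t in Icc (a + c) (b + c), f (t - c) = ∫⁻ t in Icc a b, f t := by
  have h := (measurePreserving_sub_right volume c).setLIntegral_comp_preimage_emb
    (MeasurableEquiv.subRight c).measurableEmbedding f (Icc a b)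
  rw [← h]
  congr 2
  ext x
  simp only [mem_Icc, mem_preimage]
  constructor
  · rintro ⟨h1, h2⟩; constructor <;> linarith
  · rintro ⟨h1, h2⟩; constructor <;> linarith

lemma lintegral_neg {f : ℝ → ℝ≥0∞} {a b : ℝ} :
    ∫⁻ t in Icc (-b) (-a), f (-t) = ∫⁻ t in Icc a b, f t := by
  have h := (Measure.measurePreserving_neg (volume : Measure ℝ)).setLIntegral_comp_preimage_emb
    (MeasurableEquiv.neg ℝ).measurableEmbedding f (Icc a b)
  rw [← h]
  congr 2
  ext x
  simp only [mem_Icc, mem_preimage]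
  constructor
  · rintro ⟨h1, h2⟩; constructor <;> linarith
  · rintro ⟨h1, h2⟩; constructor <;> linarith

/-- Concatenation. -/
lemma pot_le_add {n : ℕ} {ρ : Sp n → ℝ≥0∞} {A : Set (Sp n)} {e : ℝ → Sp n}
    (he : LipschitzWith 1 e) {s t : ℝ} (hst : s ≤ t) :
    pot ρ A (e t) ≤ pot ρ A (e s) + ∫⁻ τ in Icc s t, ρ (e τ) := by
  refine le_of_forall_gt fun q hq => ?_
  -- q > pot (e s) + J
  obtain ⟨q', hq1, hq2⟩ : ∃ q', pot ρ A (e s) < q' ∧ q' + ∫⁻ τ in Icc s t, ρ (e τ) ≤ q := by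
    have hJ : ∫⁻ τ in Icc s t, ρ (e τ) ≠ ⊤ := by
      intro h
      rw [h] at hq
      simp at hq
    refine ⟨q - ∫⁻ τ in Icc s t, ρ (e τ), ?_, ?_⟩
    · exact lt_tsub_iff_right.2 hq
    · rw [tsub_add_cancel_of_le]
      exact (le_add_self.trans hq.le)
  obtain ⟨e', L, ⟨he', hL, hA, hx⟩, hlt⟩ := pot_lt_iff.1 hq1
  let c : ℝ → Sp n := fun τ => if τ ≤ L then e' τ else e (τ - L + s)
  have hcL : c L = e s := by simp [c, hx]
  have hc1 : ∀ τ, τ ≤ L → c τ = e' τ := fun τ h => by simp [c, h]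
  have hc2 : ∀ τ, L ≤ τ → c τ = e (τ - L + s) := by
    intro τ h
    rcases h.eq_or_lt with h | h
    · subst h; rw [hcL]; congr 1; ring
    · simp [c, not_le.2 h]
  have hdist : ∀ τ σ, τ ≤ σ → dist (c τ) (c σ) ≤ σ - τ := by
    intro τ σ h
    rcases le_total σ L with h1 | h1
    · rw [hc1 τ (h.trans h1), hc1 σ h1]
      refine (he'.dist_le_mul _ _).trans ?_
      rw [NNReal.coe_one, one_mul, dist_comm, Real.dist_eq, abs_of_nonneg (by linarith)]
    rcases le_total τ L with h2 | h2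
    · have h3 : dist (c τ) (c L) ≤ L - τ := by
        rw [hc1 τ h2, hc1 L le_rfl]
        refine (he'.dist_le_mul _ _).trans ?_
        rw [NNReal.coe_one, one_mul, dist_comm, Real.dist_eq, abs_of_nonneg (by linarith)]
      have h4 : dist (c L) (c σ) ≤ σ - L := by
        rw [hc2 L le_rfl, hc2 σ h1]
        refine (he.dist_le_mul _ _).trans ?_
        rw [NNReal.coe_one, one_mul, dist_comm, Real.dist_eq, abs_of_nonneg (by linarith)]
        linarith
      linarith [dist_triangle (c τ) (c L) (c σ)]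
    · rw [hc2 τ h2, hc2 σ h1]
      refine (he.dist_le_mul _ _).trans ?_
      rw [NNReal.coe_one, one_mul, dist_comm, Real.dist_eq, abs_of_nonneg (by linarith)]
      linarith
  have hc : LipschitzWith 1 c := by
    refine LipschitzWith.mk_one fun τ σ => ?_
    rcases le_total τ σ with h | h
    · refine (hdist τ σ h).trans ?_
      rw [dist_comm, Real.dist_eq, abs_of_nonneg (by linarith)]
    · rw [dist_comm]
      refine (hdist σ τ h).trans ?_
      rw [Real.dist_eq, abs_of_nonneg (by linarith)]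
  have hcend : c (L + (t - s)) = e t := by
    rw [hc2 _ (by linarith)]; congr 1; ring
  have h1 : pot ρ A (e t) ≤ ∫⁻ τ in Icc 0 (L + (t - s)), ρ (c τ) := by
    rw [← hcend]
    refine pot_le hc (by linarith) ?_
    rw [hc1 0 hL]; exact hA
  have h2 : ∫⁻ τ in Icc 0 (L + (t - s)), ρ (c τ) ≤
      (∫⁻ τ in Icc 0 L, ρ (e' τ)) + ∫⁻ τ in Icc s t, ρ (e τ) := by
    have h3 : Icc 0 (L + (t - s)) ⊆ Icc 0 L ∪ Icc L (L + (t - s)) := by
      intro x hx
      rcases le_total x L with h | h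
      · exact Or.inl ⟨hx.1, h⟩
      · exact Or.inr ⟨h, hx.2⟩
    refine (lintegral_mono_set h3).trans ((lintegral_union_le _ _ _).trans ?_)
    refine add_le_add (le_of_eq ?_) (le_of_eq ?_)
    · exact setLIntegral_congr_fun measurableSet_Icc fun τ hτ => by simp only [hc1 τ hτ.2]
    · have h4 := lintegral_shift (f := fun τ => ρ (e τ)) (a := s) (b := t) (c := L - s)
      rw [← h4]
      have h5 : Icc (s + (L - s)) (t + (L - s)) = Icc L (L + (t - s)) := by congr 1 <;> ring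
      rw [h5]
      refine setLIntegral_congr_fun measurableSet_Icc fun τ hτ => ?_
      simp only [hc2 τ hτ.1]
      congr 2; ring
  calc pot ρ A (e t) ≤ _ := h1.trans h2
    _ < q' + ∫⁻ τ in Icc s t, ρ (e τ) := by
        refine ENNReal.add_lt_add_right ?_ hlt
        intro h
        rw [h] at hq
        simp at hq
    _ ≤ q := hq2

lemma pot_le_add' {n : ℕ} {ρ : Sp n → ℝ≥0∞} {A : Set (Sp n)} {e : ℝ → Sp n}
    (he : LipschitzWith 1 e) {s t : ℝ} (hst : s ≤ t) :
    pot ρ A (e s) ≤ pot ρ A (e t) + ∫⁻ τ in Icc s t, ρ (e τ) := by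
  have h1 : LipschitzWith 1 (fun τ => e (-τ)) := by
    refine LipschitzWith.mk_one fun τ σ => ?_
    refine (he.dist_le_mul _ _).trans ?_
    rw [NNReal.coe_one, one_mul, dist_neg_neg]
  have h2 := pot_le_add (ρ := ρ) (A := A) h1 (s := -t) (t := -s) (by linarith)
  simp only [neg_neg] at h2
  rwa [lintegral_neg (f := fun τ => ρ (e τ))] at h2

section Analytic

variable {n : ℕ}

instance : MeasurableSpace C(ℝ, Sp n) := borel _
instance : BorelSpace C(ℝ, Sp n) := ⟨rfl⟩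

lemma measurable_functional {ρ : Sp n → ℝ≥0∞} (hρ : Measurable ρ) :
    Measurable (fun p : ℝ × C(ℝ, Sp n) => ∫⁻ s in Icc 0 p.1, ρ (p.2 s)) := by
  have h1 : (fun p : ℝ × C(ℝ, Sp n) => ∫⁻ s in Icc 0 p.1, ρ (p.2 s)) =
      fun p : ℝ × C(ℝ, Sp n) => ∫⁻ s, ({q : (ℝ × C(ℝ, Sp n)) × ℝ | 0 ≤ q.2 ∧ q.2 ≤ q.1.1}).indicator
        (fun q => ρ (q.1.2 q.2)) (p, s) := by
    funext p
    rw [← lintegral_indicator measurableSet_Icc]
    congr 1
  rw [h1]
  refine Measurable.lintegral_prod_right' ?_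
  refine Measurable.indicator ?_ ?_
  · refine hρ.comp ?_
    have : Continuous (fun q : (ℝ × C(ℝ, Sp n)) × ℝ => q.1.2 q.2) := by fun_prop
    exact this.measurable
  · have h2 : MeasurableSet {q : (ℝ × C(ℝ, Sp n)) × ℝ | 0 ≤ q.2} :=
      measurableSet_le measurable_const measurable_snd
    have h3 : MeasurableSet {q : (ℝ × C(ℝ, Sp n)) × ℝ | q.2 ≤ q.1.1} :=
      measurableSet_le measurable_snd (measurable_fst.comp measurable_fst)
    exact h2.inter h3

lemma analytic_pot {ρ : Sp n → ℝ≥0∞} (hρ : Measurable ρ) {A : Set (Sp n)}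
    (hA : MeasurableSet A) (q : ℝ≥0∞) : AnalyticSet {x | pot ρ A x < q} := by
  let P : Set (ℝ × C(ℝ, Sp n)) := {p | (0 ≤ p.1 ∧ p.2 0 ∈ A) ∧ LipschitzWith 1 p.2 ∧
    ∫⁻ s in Icc 0 p.1, ρ (p.2 s) < q}
  have hP : MeasurableSet P := by
    have h1 : MeasurableSet {p : ℝ × C(ℝ, Sp n) | 0 ≤ p.1} :=
      measurableSet_le measurable_const measurable_fst
    have h2 : MeasurableSet {p : ℝ × C(ℝ, Sp n) | p.2 0 ∈ A} := by
      have : Continuous (fun p : ℝ × C(ℝ, Sp n) => p.2 0) := by fun_prop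
      exact this.measurable hA
    have h3 : MeasurableSet {p : ℝ × C(ℝ, Sp n) | LipschitzWith 1 p.2} := by
      have : {p : ℝ × C(ℝ, Sp n) | LipschitzWith 1 p.2} =
          ⋂ (s : ℝ) (t : ℝ), {p : ℝ × C(ℝ, Sp n) | dist (p.2 s) (p.2 t) ≤ dist s t} := by
        ext p
        simp only [mem_ofPred_eq, mem_iInter]
        constructor
        · intro h s t
          have := h.dist_le_mul s t
          simpa using this
        · intro h
          exact LipschitzWith.mk_one h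
      rw [this]
      refine IsClosed.measurableSet ?_
      refine isClosed_iInter fun s => isClosed_iInter fun t => ?_
      refine isClosed_le ?_ continuous_const
      fun_prop
    have h4 : MeasurableSet {p : ℝ × C(ℝ, Sp n) | ∫⁻ s in Icc 0 p.1, ρ (p.2 s) < q} :=
      measurableSet_lt (measurable_functional hρ) measurable_const
    exact (h1.inter h2).inter (h3.inter h4)
  have himg : {x | pot ρ A x < q} = (fun p : ℝ × C(ℝ, Sp n) => p.2 p.1) '' P := by
    ext x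
    rw [mem_ofPred_eq, pot_lt_iff]
    constructor
    · rintro ⟨e, L, ⟨h1, h2, h3, h4⟩, h5⟩
      exact ⟨(L, ⟨e, h1.continuous⟩), ⟨⟨h2, h3⟩, h1, h5⟩, h4⟩
    · rintro ⟨⟨L, e⟩, ⟨⟨h2, h3⟩, h1, h5⟩, h4⟩
      exact ⟨e, L, ⟨h1, h2, h3, h4⟩, h5⟩
  rw [himg]
  refine hP.analyticSet_image ?_
  have : Continuous (fun p : ℝ × C(ℝ, Sp n) => p.2 p.1) := by fun_prop
  exact this.measurable

lemma aemeasurable_pot {ρ : Sp n → ℝ≥0∞} (hρ : Measurable ρ) {A : Set (Sp n)}
    (hA : MeasurableSet A) : AEMeasurable (pot ρ A) (volume : Measure (Sp n)) := by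
  have h : ∀ q, NullMeasurableSet {x | pot ρ A x < q} (volume : Measure (Sp n)) := by
    intro q
    have h1 : NullMeasurableSet {x | pot ρ A x < q} ((volume : Measure (Sp n)).toFinite) :=
      Pool.Agent.H894R3.Ana.analytic_nullMeasurable _ (analytic_pot hρ hA q)
    exact h1.mono_ac (absolutelyContinuous_toFinite _)
  have h2 : NullMeasurable (pot ρ A) (volume : Measure (Sp n)) := by
    exact measurable_of_Iio (δ := NullMeasurableSpace (Sp n) volume) (f := pot ρ A) h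
  exact h2.aemeasurable

end Analytic

end Pool.Agent.Helper56K9.RM
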