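import Pool.Agent.Helper56K9.RM.Inf
import Pool.Agent.Helper56K9.RM.AC
import Pool.Agent.Helper56K9.RM.Pot

set_option autoImplicit false

open MeasureTheory Set Filter Topology
open scoped ENNReal NNReal

namespace Pool.Agent.Helper56K9.RM

/-! ## The reflection -/

section Refl

variable {k : ℕ}

/-- The reflection as a linear isometry. -/
noncomputable def reflE (k : ℕ) : Sp (k + 2) ≃ₗᵢ[ℝ] Sp (k + 2) :=
  LinearIsometryEquiv.piLpCongrRight 2
    (fun i => if i = Fin.last (k + 1) then LinearIsometryEquiv.neg ℝ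
      else LinearIsometryEquiv.refl ℝ ℝ)

lemma reflE_apply (x : Sp (k + 2)) : reflE k x = refl x := by
  ext i
  by_cases h : i = Fin.last (k + 1)
  · subst h
    simp [reflE, refl]
  · simp [reflE, refl, h]

lemma reflE_coe : (reflE k : Sp (k + 2) → Sp (k + 2)) = refl := funext reflE_apply

lemma refl_last (x : Sp (k + 2)) : (refl x) (Fin.last (k + 1)) = -x (Fin.last (k + 1)) := by
  simp [refl]

lemma refl_refl (x : Sp (k + 2)) : refl (refl x) = x := by
  ext i
  by_cases h : i = Fin.last (k + 1)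
  · subst h
    simp [refl]
  · simp [refl]

lemma refl_eq {x : Sp (k + 2)} (hx : x (Fin.last (k + 1)) = 0) : refl x = x := by
  ext i
  by_cases h : i = Fin.last (k + 1)
  · subst h
    simp [refl, hx]
  · simp [refl, Function.update_of_ne h]

lemma refl_mp : MeasurePreserving (refl : Sp (k + 2) → Sp (k + 2)) volume volume := by
  rw [← reflE_coe]
  exact (reflE k).measurePreserving

lemma refl_measurable : Measurable (refl : Sp (k + 2) → Sp (k + 2)) := refl_mp.measurable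

lemma refl_lip : LipschitzWith 1 (refl : Sp (k + 2) → Sp (k + 2)) := by
  rw [← reflE_coe]
  exact (reflE k).lipschitz

end Refl

/-! ## Real integrals -/

lemma bridge {h : ℝ → ℝ≥0∞} (hh : Measurable h) {L : ℝ} (hL : 0 ≤ L)
    (hfin : ∫⁻ x in Icc 0 L, h x ≠ ⊤) :
    IntervalIntegrable (fun x => (h x).toReal) volume 0 L ∧
      ∀ s t, 0 ≤ s → s ≤ t → t ≤ L → ∫⁻ x in Icc s t, h x ≠ ⊤ ∧
        ∫ x in s..t, (h x).toReal = (∫⁻ x in Icc s t, h x).toReal := by
  constructor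
  · rw [intervalIntegrable_iff_integrableOn_Icc_of_le hL]
    exact integrable_toReal_of_lintegral_ne_top hh.aemeasurable hfin
  · intro s t hs hst ht
    have h1 : ∫⁻ x in Icc s t, h x ≠ ⊤ :=
      ne_top_of_le_ne_top hfin (lintegral_mono_set (Icc_subset_Icc hs ht))
    refine ⟨h1, ?_⟩
    rw [intervalIntegral.integral_of_le hst, ← integral_Icc_eq_integral_Ioc,
      integral_toReal hh.aemeasurable (ae_lt_top hh h1)]

lemma trunc {a b J : ℝ≥0∞} (h1 : a ≤ b + J) (h2 : b ≤ a + J) (hJ : J ≠ ⊤) :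
    |(min a 1).toReal - (min b 1).toReal| ≤ J.toReal := by
  have ha : min a 1 ≠ ⊤ := ne_top_of_le_ne_top ENNReal.one_ne_top (min_le_right _ _)
  have hb : min b 1 ≠ ⊤ := ne_top_of_le_ne_top ENNReal.one_ne_top (min_le_right _ _)
  have key : ∀ a b : ℝ≥0∞, a ≤ b + J → min a 1 ≤ min b 1 + J := by
    intro a b h
    rcases le_total b 1 with hb1 | hb1
    · rw [min_eq_left hb1]; exact (min_le_left _ _).trans h
    · rw [min_eq_right hb1]; exact (min_le_right _ _).trans le_self_add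
  have h3 := ENNReal.toReal_mono (ENNReal.add_ne_top.2 ⟨hb, hJ⟩) (key a b h1)
  have h4 := ENNReal.toReal_mono (ENNReal.add_ne_top.2 ⟨ha, hJ⟩) (key b a h2)
  rw [ENNReal.toReal_add hb hJ] at h3
  rw [ENNReal.toReal_add ha hJ] at h4
  rw [abs_le]
  constructor <;> linarith

/-! ## The polarised function along a curve -/

section Polar

variable {k : ℕ}

/-- the part of space where `ρ` is kept -/
def keep (v : Sp (k + 2) → ℝ≥0∞) : Set (Sp (k + 2)) :=
  {x | (0 ≤ x (Fin.last (k + 1)) ∧ v x ≤ v (refl x)) ∨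
    (x (Fin.last (k + 1)) < 0 ∧ v (refl x) ≤ v x)}

lemma keep_refl (v : Sp (k + 2) → ℝ≥0∞) : refl ⁻¹' (keep v) = keep v := by
  ext x
  simp only [keep, mem_preimage, mem_ofPred_eq, refl_last, refl_refl]
  rcases lt_trichotomy (x (Fin.last (k + 1))) 0 with h | h | h
  · constructor
    · rintro (⟨_, h2⟩ | ⟨h1, _⟩)
      · exact Or.inr ⟨h, h2⟩
      · linarith
    · rintro (⟨h1, _⟩ | ⟨_, h2⟩)
      · linarith
      · exact Or.inl ⟨by linarith, h2⟩
  · have hx := refl_eq h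
    constructor
    · intro _
      exact Or.inl ⟨h.ge, by rw [hx]⟩
    · intro _
      exact Or.inl ⟨by linarith, by rw [hx]⟩
  · constructor
    · rintro (⟨h1, _⟩ | ⟨_, h2⟩)
      · linarith
      · exact Or.inl ⟨h.le, h2⟩
    · rintro (⟨_, h2⟩ | ⟨h1, _⟩)
      · exact Or.inr ⟨by linarith, h2⟩
      · linarith

lemma keep_measurable {v : Sp (k + 2) → ℝ≥0∞} (hv : Measurable v) : MeasurableSet (keep v) := by
  have h1 : Measurable (fun x : Sp (k + 2) => x (Fin.last (k + 1))) := by fun_prop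
  have h2 : Measurable (fun x : Sp (k + 2) => v (refl x)) := hv.comp refl_measurable
  exact ((measurableSet_le measurable_const h1).inter (measurableSet_le hv h2)).union
    ((measurableSet_lt h1 measurable_const).inter (measurableSet_le h2 hv))

open Classical in
/-- the polarised density -/
noncomputable def pol (ρ v : Sp (k + 2) → ℝ≥0∞) : Sp (k + 2) → ℝ≥0∞ :=
  (keep v).piecewise ρ (fun x => ρ (refl x))

lemma pol_measurable {ρ v : Sp (k + 2) → ℝ≥0∞} (hρ : Measurable ρ) (hv : Measurable v) :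
    Measurable (pol ρ v) := by
  classical
  exact Measurable.piecewise (keep_measurable hv) hρ (hρ.comp refl_measurable)

lemma pol_le (ρ v : Sp (k + 2) → ℝ≥0∞) (x : Sp (k + 2)) : pol ρ v x ≤ ρ x + ρ (refl x) := by
  classical
  by_cases h : x ∈ keep v
  · rw [pol, piecewise_eq_of_mem _ _ _ h]; exact le_self_add
  · rw [pol, piecewise_eq_of_notMem _ _ _ h]; exact le_add_self

lemma pol_energy {ρ v : Sp (k + 2) → ℝ≥0∞} (hv : Measurable v) (m : ℕ) :
    ∫⁻ x, pol ρ v x ^ m = ∫⁻ x, ρ x ^ m := by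
  classical
  have hP := keep_measurable hv
  rw [← lintegral_add_compl _ hP, ← lintegral_add_compl (fun x => ρ x ^ m) hP]
  congr 1
  · refine setLIntegral_congr_fun hP fun x hx => ?_
    simp only [pol, piecewise_eq_of_mem _ _ _ hx]
  · have h1 : ∫⁻ x in (keep v)ᶜ, pol ρ v x ^ m = ∫⁻ x in (keep v)ᶜ, ρ (refl x) ^ m := by
      refine setLIntegral_congr_fun hP.compl fun x hx => ?_
      simp only [pol, piecewise_eq_of_notMem _ _ _ hx]
    have h2 : refl ⁻¹' (keep v)ᶜ = (keep v)ᶜ := by rw [preimage_compl, keep_refl]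
    have hemb : MeasurableEmbedding (refl : Sp (k + 2) → Sp (k + 2)) := by
      rw [← reflE_coe]
      exact (reflE k).toHomeomorph.measurableEmbedding
    have h3 := refl_mp.setLIntegral_comp_preimage_emb hemb (fun x => ρ x ^ m) (keep v)ᶜ
    rw [h1, ← h3, h2]

/-- The main estimate along a curve. -/
lemma curve_estimate {E F : Set (Sp (k + 2))} {ρ v : Sp (k + 2) → ℝ≥0∞} (hρ : Measurable ρ)
    (hv : Measurable v) (hE : ∀ x ∈ E, 0 ≤ x (Fin.last (k + 1)))
    (hF : ∀ x ∈ F, x (Fin.last (k + 1)) ≤ 0)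
    (hadm : ∀ x ∈ F, 1 ≤ pot ρ E (refl x)) {e : ℝ → Sp (k + 2)} (he : LipschitzWith 1 e)
    {L : ℝ} (hL : 0 ≤ L) (h0 : e 0 ∈ E) (hLF : e L ∈ F)
    (hfin : ∫⁻ s in Icc 0 L, (ρ (e s) + ρ (refl (e s))) ≠ ⊤)
    (hN : ∀ᵐ s, s ∈ Icc 0 L → v (e s) = pot ρ E (e s) ∧ v (refl (e s)) = pot ρ E (refl (e s))) :
    1 ≤ ∫⁻ s in Icc 0 L, pol ρ v (e s) := by
  classical
  have hre : LipschitzWith 1 (fun s => refl (e s)) := by
    have := refl_lip.comp he
    simpa [Function.comp_def] using this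
  have hm1 : Measurable (fun s => ρ (e s)) := hρ.comp he.continuous.measurable
  have hm2 : Measurable (fun s => ρ (refl (e s))) := hρ.comp hre.continuous.measurable
  have hm3 : Measurable (fun s => pol ρ v (e s)) :=
    (pol_measurable hρ hv).comp he.continuous.measurable
  have hfin1 : ∫⁻ s in Icc 0 L, ρ (e s) ≠ ⊤ :=
    ne_top_of_le_ne_top hfin (lintegral_mono fun s => le_self_add)
  have hfin2 : ∫⁻ s in Icc 0 L, ρ (refl (e s)) ≠ ⊤ :=
    ne_top_of_le_ne_top hfin (lintegral_mono fun s => le_add_self)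
  have hfin3 : ∫⁻ s in Icc 0 L, pol ρ v (e s) ≠ ⊤ :=
    ne_top_of_le_ne_top hfin (lintegral_mono fun s => pol_le ρ v (e s))
  obtain ⟨hi1, hb1⟩ := bridge hm1 hL hfin1
  obtain ⟨hi2, hb2⟩ := bridge hm2 hL hfin2
  obtain ⟨hi3, hb3⟩ := bridge hm3 hL hfin3
  set f₁ : ℝ → ℝ := fun s => (min (pot ρ E (e s)) 1).toReal with hf₁
  set f₂ : ℝ → ℝ := fun s => (min (pot ρ E (refl (e s))) 1).toReal with hf₂
  have h1 : ∀ s t, 0 ≤ s → s ≤ t → t ≤ L → |f₁ t - f₁ s| ≤ ∫ x in s..t, (ρ (e x)).toReal := by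
    intro s t hs hst ht
    rw [(hb1 s t hs hst ht).2]
    exact trunc (pot_le_add he hst) (pot_le_add' he hst) (hb1 s t hs hst ht).1
  have h2 : ∀ s t, 0 ≤ s → s ≤ t → t ≤ L →
      |f₂ t - f₂ s| ≤ ∫ x in s..t, (ρ (refl (e x))).toReal := by
    intro s t hs hst ht
    rw [(hb2 s t hs hst ht).2]
    exact trunc (pot_le_add hre hst) (pot_le_add' hre hst) (hb2 s t hs hst ht).1
  set z : ℝ → ℝ := fun s => (e s) (Fin.last (k + 1)) with hz
  have hzc : Continuous z := by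
    have : Continuous (fun x : Sp (k + 2) => x (Fin.last (k + 1))) := by fun_prop
    exact this.comp he.continuous
  set w : ℝ → ℝ := fun s => if 0 ≤ z s then min (f₁ s) (f₂ s) else max (f₁ s) (f₂ s) with hw
  have hzero : ∀ s, z s = 0 → f₁ s = f₂ s := by
    intro s hs
    simp only [hf₁, hf₂]
    rw [refl_eq hs]
  have hwp : ∀ s, 0 ≤ z s → w s = min (f₁ s) (f₂ s) := fun s hs => by simp [hw, hs]
  have hwn : ∀ s, z s ≤ 0 → w s = max (f₁ s) (f₂ s) := by
    intro s hs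
    rcases hs.eq_or_lt with h | h
    · rw [hwp s h.ge, hzero s h, min_self, max_self]
    · simp [hw, not_le.2 h]
  have hint : ∀ s t, 0 ≤ s → s ≤ t → t ≤ L →
      ∫ x in s..t, ((ρ (e x)).toReal + (ρ (refl (e x))).toReal) =
      (∫ x in s..t, (ρ (e x)).toReal) + ∫ x in s..t, (ρ (refl (e x))).toReal := by
    intro s t hs hst ht
    refine intervalIntegral.integral_add ?_ ?_
    · exact hi1.mono_set (by
        rw [uIcc_of_le hst, uIcc_of_le hL]; exact Icc_subset_Icc hs ht)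
    · exact hi2.mono_set (by
        rw [uIcc_of_le hst, uIcc_of_le hL]; exact Icc_subset_Icc hs ht)
  have hnn1 : ∀ s t, s ≤ t → 0 ≤ ∫ x in s..t, (ρ (e x)).toReal := fun s t hst =>
    intervalIntegral.integral_nonneg hst fun x _ => ENNReal.toReal_nonneg
  have hnn2 : ∀ s t, s ≤ t → 0 ≤ ∫ x in s..t, (ρ (refl (e x))).toReal := fun s t hst =>
    intervalIntegral.integral_nonneg hst fun x _ => ENNReal.toReal_nonneg
  have hsame : ∀ s t, 0 ≤ s → s ≤ t → t ≤ L → (0 ≤ z s ∧ 0 ≤ z t) ∨ (z s ≤ 0 ∧ z t ≤ 0) →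
      |w t - w s| ≤ ∫ x in s..t, ((ρ (e x)).toReal + (ρ (refl (e x))).toReal) := by
    intro s t hs hst ht h
    rw [hint s t hs hst ht]
    have a1 := h1 s t hs hst ht
    have a2 := h2 s t hs hst ht
    have b1 := hnn1 s t hst
    have b2 := hnn2 s t hst
    rcases h with ⟨hs', ht'⟩ | ⟨hs', ht'⟩
    · rw [hwp s hs', hwp t ht']
      refine (abs_min_sub_min_le_max _ _ _ _).trans (max_le ?_ ?_) <;> linarith
    · rw [hwn s hs', hwn t ht']
      refine (abs_max_sub_max_le_max _ _ _ _).trans (max_le ?_ ?_) <;> linarith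
  have hadd : ∀ s τ t, 0 ≤ s → s ≤ τ → τ ≤ t → t ≤ L →
      (∫ x in s..τ, ((ρ (e x)).toReal + (ρ (refl (e x))).toReal)) +
        ∫ x in τ..t, ((ρ (e x)).toReal + (ρ (refl (e x))).toReal) =
      ∫ x in s..t, ((ρ (e x)).toReal + (ρ (refl (e x))).toReal) := by
    intro s τ t hs hsτ hτt ht
    refine intervalIntegral.integral_add_adjacent_intervals ?_ ?_
    · exact (hi1.add hi2).mono_set (by
        rw [uIcc_of_le hsτ, uIcc_of_le hL]; exact Icc_subset_Icc hs (hτt.trans ht))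
    · exact (hi1.add hi2).mono_set (by
        rw [uIcc_of_le hτt, uIcc_of_le hL]; exact Icc_subset_Icc (hs.trans hsτ) ht)
  have hwlip : ∀ s t, 0 ≤ s → s ≤ t → t ≤ L →
      |w t - w s| ≤ ∫ x in s..t, ((ρ (e x)).toReal + (ρ (refl (e x))).toReal) := by
    intro s t hs hst ht
    have hcross : ∀ τ ∈ Icc s t, z τ = 0 →
        |w t - w s| ≤ ∫ x in s..t, ((ρ (e x)).toReal + (ρ (refl (e x))).toReal) := by
      intro τ hτ hzτ
      have c1 : (0 ≤ z s ∧ 0 ≤ z τ) ∨ (z s ≤ 0 ∧ z τ ≤ 0) := by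
        rcases le_total 0 (z s) with h | h
        · exact Or.inl ⟨h, hzτ.ge⟩
        · exact Or.inr ⟨h, hzτ.le⟩
      have c2 : (0 ≤ z τ ∧ 0 ≤ z t) ∨ (z τ ≤ 0 ∧ z t ≤ 0) := by
        rcases le_total 0 (z t) with h | h
        · exact Or.inl ⟨hzτ.ge, h⟩
        · exact Or.inr ⟨hzτ.le, h⟩
      have d1 := hsame s τ hs hτ.1 (hτ.2.trans ht) c1
      have d2 := hsame τ t (hs.trans hτ.1) hτ.2 ht c2
      rw [← hadd s τ t hs hτ.1 hτ.2 ht]
      calc |w t - w s| = |(w τ - w s) + (w t - w τ)| := by ring_nf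
        _ ≤ |w τ - w s| + |w t - w τ| := abs_add_le _ _
        _ ≤ _ := add_le_add d1 d2
    rcases le_total 0 (z s) with hzs | hzs <;> rcases le_total 0 (z t) with hzt | hzt
    · exact hsame s t hs hst ht (Or.inl ⟨hzs, hzt⟩)
    · obtain ⟨τ, hτ, hτ'⟩ := intermediate_value_Icc' hst hzc.continuousOn (show (0 : ℝ) ∈ Icc (z t) (z s) from ⟨hzt, hzs⟩)
      exact hcross τ hτ hτ'
    · obtain ⟨τ, hτ, hτ'⟩ := intermediate_value_Icc hst hzc.continuousOn (show (0 : ℝ) ∈ Icc (z s) (z t) from ⟨hzs, hzt⟩)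
      exact hcross τ hτ hτ'
    · exact hsame s t hs hst ht (Or.inr ⟨hzs, hzt⟩)
  have hae : ∀ᵐ t, t ∈ Ioo 0 L →
      (w t = f₁ t ∧ (ρ (e t)).toReal ≤ (pol ρ v (e t)).toReal) ∨
      (w t = f₂ t ∧ (ρ (refl (e t))).toReal ≤ (pol ρ v (e t)).toReal) := by
    filter_upwards [hN] with t ht htI
    obtain ⟨ha, hb⟩ := ht (Ioo_subset_Icc_self htI)
    have hmono : ∀ a b : ℝ≥0∞, a ≤ b → (min a 1).toReal ≤ (min b 1).toReal := fun a b hab =>
      ENNReal.toReal_mono (ne_top_of_le_ne_top ENNReal.one_ne_top (min_le_right _ _))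
        (min_le_min hab le_rfl)
    by_cases hk : e t ∈ keep v
    · left
      refine ⟨?_, by rw [pol, piecewise_eq_of_mem _ _ _ hk]⟩
      rcases hk with ⟨hk1, hk2⟩ | ⟨hk1, hk2⟩
      · rw [hwp t hk1, ha, hb] at *
        exact min_eq_left (hmono _ _ hk2)
      · rw [hwn t hk1.le]
        rw [ha, hb] at hk2
        exact max_eq_left (hmono _ _ hk2)
    · right
      refine ⟨?_, by rw [pol, piecewise_eq_of_notMem _ _ _ hk]⟩
      simp only [keep, mem_ofPred_eq, not_or, not_and, not_le] at hk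
      rcases le_or_gt 0 (z t) with h | h
      · rw [hwp t h]
        have := hk.1 h
        rw [ha, hb] at this
        exact min_eq_right (hmono _ _ this.le)
      · rw [hwn t h.le]
        have := hk.2 h
        rw [ha, hb] at this
        exact max_eq_right (hmono _ _ this.le)
  have hkey := ac_key hL hi1 hi2 hi3 h1 h2 hwlip hae
  rw [(hb3 0 L le_rfl hL le_rfl).2] at hkey
  -- the values at the end points
  have hw0 : w 0 ≤ 0 := by
    rw [hwp 0 (hE _ h0)]
    refine (min_le_left _ _).trans ?_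
    simp only [hf₁]
    rw [pot_eq_zero h0]
    simp
  have hwL : 1 ≤ w L := by
    rw [hwn L (hF _ hLF)]
    refine le_trans ?_ (le_max_right _ _)
    simp only [hf₂]
    rw [min_eq_right (hadm _ hLF)]
    simp
  have h4 : 1 ≤ (∫⁻ s in Icc 0 L, pol ρ v (e s)).toReal := by linarith
  calc (1 : ℝ≥0∞) = ENNReal.ofReal 1 := by simp
    _ ≤ ENNReal.ofReal (∫⁻ s in Icc 0 L, pol ρ v (e s)).toReal := ENNReal.ofReal_le_ofReal h4
    _ ≤ _ := ENNReal.ofReal_toReal_le

end Polar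

/-! ## The inequality -/

section Final

variable {k : ℕ}

/-- The competitor. -/
noncomputable def comp (ε : ℝ≥0∞) (ρ v : Sp (k + 2) → ℝ≥0∞) (N : Set (Sp (k + 2)))
    (x : Sp (k + 2)) : ℝ≥0∞ :=
  (pol ρ v x + ε * ((ρ x + ρ (refl x)) + wt ‖x‖)) + N.indicator (fun _ => ⊤) x

lemma comp_measurable {ε : ℝ≥0∞} {ρ v : Sp (k + 2) → ℝ≥0∞} {N : Set (Sp (k + 2))}
    (hρ : Measurable ρ) (hv : Measurable v) (hN : MeasurableSet N) :
    Measurable (comp ε ρ v N) := by
  have h1 := pol_measurable hρ hv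
  have h2 : Measurable (fun x : Sp (k + 2) => ρ (refl x)) := hρ.comp refl_measurable
  have h3 : Measurable (fun x : Sp (k + 2) => wt ‖x‖) := measurable_wt.comp measurable_norm
  exact (h1.add (((hρ.add h2).add h3).const_mul ε)).add (measurable_const.indicator hN)

lemma comp_admissible {E F : Set (Sp (k + 2))} {ρ v : Sp (k + 2) → ℝ≥0∞} (hρ : Measurable ρ)
    (hv : Measurable v) (hE : ∀ x ∈ E, 0 ≤ x (Fin.last (k + 1)))
    (hF : ∀ x ∈ F, x (Fin.last (k + 1)) ≤ 0)
    (hadm : ∀ x ∈ F, 1 ≤ pot ρ E (refl x)) {N : Set (Sp (k + 2))} (hN : MeasurableSet N)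
    (hNv : ∀ x, x ∉ N → v x = pot ρ E x ∧ v (refl x) = pot ρ E (refl x)) {ε : ℝ≥0∞} (hε : ε ≠ 0)
    (hεt : ε ≠ ⊤) : Admissible (joining (toInf E) (toInf F)) (comp ε ρ v N) := by
  refine admissible_of_lip (comp_measurable hρ hv hN) ?_ ?_
  · intro e L he hL h0 hLF
    by_cases hfin : ∫⁻ s in Icc 0 L, (ρ (e s) + ρ (refl (e s))) = ⊤
    · have h1 : ε * ∫⁻ s in Icc 0 L, (ρ (e s) + ρ (refl (e s))) ≤
          ∫⁻ s in Icc 0 L, comp ε ρ v N (e s) := by
        refine (lintegral_const_mul_le _ _).trans (lintegral_mono fun s => ?_)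
        unfold comp
        rw [mul_add ε (ρ (e s) + ρ (refl (e s)))]
        exact (le_self_add.trans le_add_self).trans le_self_add
      rw [hfin, ENNReal.mul_top hε, top_le_iff] at h1
      rw [h1]; exact le_top
    by_cases hZ : volume ({s | e s ∈ N} ∩ Icc 0 L) = 0
    · have h1 : ∀ᵐ s, s ∈ Icc 0 L →
          v (e s) = pot ρ E (e s) ∧ v (refl (e s)) = pot ρ E (refl (e s)) := by
        have h2 : ∀ᵐ s, s ∉ {s | e s ∈ N} ∩ Icc 0 L := measure_eq_zero_iff_ae_notMem.1 hZ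
        filter_upwards [h2] with s hs hsI
        exact hNv _ (fun h => hs ⟨h, hsI⟩)
      refine (curve_estimate hρ hv hE hF hadm he hL h0 hLF hfin h1).trans
        (lintegral_mono fun s => ?_)
      unfold comp
      exact le_self_add.trans le_self_add
    · have h1 : ∫⁻ s in ({s | e s ∈ N} ∩ Icc 0 L), (⊤ : ℝ≥0∞) ≤
          ∫⁻ s in Icc 0 L, comp ε ρ v N (e s) := by
        have hmeas : MeasurableSet ({s | e s ∈ N} ∩ Icc 0 L) :=
          (he.continuous.measurable hN).inter measurableSet_Icc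
        refine le_trans ?_ (lintegral_mono_set (inter_subset_right (s := {s | e s ∈ N})))
        refine setLIntegral_mono' hmeas fun s hs => ?_
        unfold comp
        rw [indicator_of_mem (show e s ∈ N from hs.1)]
        simp
      rw [setLIntegral_const, ENNReal.top_mul hZ, top_le_iff] at h1
      rw [h1]; exact le_top
  · intro x
    obtain ⟨R, hR1, hR2⟩ := wt_div ‖x‖ ε⁻¹ (ENNReal.inv_ne_top.2 hε)
    refine ⟨R, fun e L he hL h0 hRL => ?_⟩
    have h1 : ε⁻¹ ≤ ∫⁻ s in Icc 0 L, wt ‖e s‖ := by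
      refine (hR2.trans ?_).trans (wt_curve he hL)
      rw [h0]
      exact lintegral_mono_set (Icc_subset_Icc le_rfl hRL)
    calc (1 : ℝ≥0∞) = ε * ε⁻¹ := (ENNReal.mul_inv_cancel hε hεt).symm
      _ ≤ ε * ∫⁻ s in Icc 0 L, wt ‖e s‖ := by gcongr
      _ ≤ ∫⁻ s in Icc 0 L, ε * wt ‖e s‖ := lintegral_const_mul_le _ _
      _ ≤ _ := by
          refine lintegral_mono fun s => ?_
          unfold comp
          rw [mul_add ε (ρ (e s) + ρ (refl (e s)))]
          exact (le_add_self.trans le_add_self).trans le_self_add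

lemma norm_add {f g : Sp (k + 2) → ℝ≥0∞} (hf : Measurable f) (hg : Measurable g) :
    (∫⁻ x, (f x + g x) ^ ((k + 2 : ℕ) : ℝ)) ^ (1 / ((k + 2 : ℕ) : ℝ)) ≤
      (∫⁻ x, f x ^ ((k + 2 : ℕ) : ℝ)) ^ (1 / ((k + 2 : ℕ) : ℝ)) +
        (∫⁻ x, g x ^ ((k + 2 : ℕ) : ℝ)) ^ (1 / ((k + 2 : ℕ) : ℝ)) :=
  ENNReal.lintegral_Lp_add_le hf.aemeasurable hg.aemeasurable (by
    push_cast
    linarith [(Nat.cast_nonneg k : (0 : ℝ) ≤ k)])

theorem main {E F : Set (Sp (k + 2))} (hEm : MeasurableSet E)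
    (hE : ∀ x ∈ E, 0 ≤ x (Fin.last (k + 1))) (hF : ∀ x ∈ F, x (Fin.last (k + 1)) ≤ 0) :
    modulus (joining (toInf E) (toInf F)) ≤ modulus (joining (toInf E) (toInf (refl '' F))) := by
  refine le_iInf fun ρ => le_iInf fun hadm => ?_
  have hρ := hadm.1
  by_cases hI : ∫⁻ x, ρ x ^ (k + 2) = ⊤
  · rw [hI]; exact le_top
  -- the potential
  have hpot := aemeasurable_pot hρ hEm
  set v := hpot.mk (pot ρ E) with hv
  have hvm : Measurable v := hpot.measurable_mk
  have hve : pot ρ E =ᵐ[volume] v := hpot.ae_eq_mk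
  have hpot1 : ∀ x ∈ F, 1 ≤ pot ρ E (refl x) := by
    intro x hx
    unfold pot
    refine le_iInf fun e => le_iInf fun L => le_iInf fun h => ?_
    exact admissible_lip hadm h.1 h.2.1 h.2.2.1 (by rw [h.2.2.2]; exact ⟨x, hx, rfl⟩)
  -- the exceptional null set
  obtain ⟨N₀, hN₀, hN₀m, hN₀0⟩ := exists_measurable_superset_of_null
    (show volume {x | ¬ pot ρ E x = v x} = 0 from hve)
  set N : Set (Sp (k + 2)) := N₀ ∪ refl ⁻¹' N₀ with hN
  have hNm : MeasurableSet N := hN₀m.union (refl_measurable hN₀m)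
  have hN0 : volume N = 0 := by
    refine measure_union_null hN₀0 ?_
    rw [refl_mp.measure_preimage hN₀m.nullMeasurableSet, hN₀0]
  have hNv : ∀ x, x ∉ N → v x = pot ρ E x ∧ v (refl x) = pot ρ E (refl x) := by
    intro x hx
    constructor
    · by_contra h
      exact hx (Or.inl (hN₀ (fun h' => h h'.symm)))
    · by_contra h
      exact hx (Or.inr (hN₀ (fun h' => h h'.symm)))
  set p : ℝ := ((k + 2 : ℕ) : ℝ) with hp
  have hp0 : p ≠ 0 := by rw [hp]; positivity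
  have hp0' : 0 < p := by rw [hp]; positivity
  set a : ℝ≥0∞ := (∫⁻ x, ρ x ^ p) ^ (1 / p) with ha
  set h : Sp (k + 2) → ℝ≥0∞ := fun x => (ρ x + ρ (refl x)) + wt ‖x‖ with hh
  have hh1 : Measurable (fun x : Sp (k + 2) => ρ (refl x)) := hρ.comp refl_measurable
  have hh2 : Measurable (fun x : Sp (k + 2) => wt ‖x‖) := measurable_wt.comp measurable_norm
  have hhm : Measurable h := (hρ.add hh1).add hh2
  set b : ℝ≥0∞ := (∫⁻ x, h x ^ p) ^ (1 / p) with hb
  have hapow : a ^ (k + 2) = ∫⁻ x, ρ x ^ (k + 2) := by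
    rw [ha, ← ENNReal.rpow_natCast, ← hp, ← ENNReal.rpow_mul, one_div_mul_cancel hp0,
      ENNReal.rpow_one]
    simp only [hp, ENNReal.rpow_natCast]
  have hat : a ≠ ⊤ := by
    intro hcon
    rw [hcon] at hapow
    rw [← hapow] at hI
    simp at hI
  have hrefl : ∫⁻ x : Sp (k + 2), ρ (refl x) ^ p = ∫⁻ x, ρ x ^ p :=
    refl_mp.lintegral_comp (f := fun x => ρ x ^ p) (hρ.pow_const p)
  have hbt : b ≠ ⊤ := by
    have h1 := norm_add (hρ.add hh1) hh2
    have h2 := norm_add hρ hh1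
    have h3 : (∫⁻ x : Sp (k + 2), wt ‖x‖ ^ p) ^ (1 / p) ≠ ⊤ := by
      refine ENNReal.rpow_ne_top_of_nonneg (by positivity) ?_
      have := lintegral_wt k
      simpa only [hp, ENNReal.rpow_natCast] using this
    rw [← hp, hrefl, ← ha] at h2
    have h4 : (∫⁻ x, (ρ x + ρ (refl x)) ^ p) ^ (1 / p) ≠ ⊤ :=
      ne_top_of_le_ne_top (ENNReal.add_ne_top.2 ⟨hat, hat⟩) h2
    exact ne_top_of_le_ne_top (ENNReal.add_ne_top.2 ⟨h4, h3⟩) h1
  -- the estimate for fixed `ε`
  have hest : ∀ ε : ℝ≥0∞, ε ≠ 0 → ε ≠ ⊤ →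
      modulus (joining (toInf E) (toInf F)) ≤ (a + ε * b) ^ (k + 2) := by
    intro ε hε hεt
    have h1 : modulus (joining (toInf E) (toInf F)) ≤ ∫⁻ x, comp ε ρ v N x ^ (k + 2) :=
      (iInf_le _ _).trans (iInf_le _ (comp_admissible hρ hvm hE hF hpot1 hNm hNv hε hεt))
    have h2 : ∫⁻ x, comp ε ρ v N x ^ (k + 2) = ∫⁻ x, (pol ρ v x + ε * h x) ^ p := by
      refine lintegral_congr_ae ?_
      have h3 : ∀ᵐ x, x ∉ N := measure_eq_zero_iff_ae_notMem.1 hN0
      filter_upwards [h3] with x hx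
      rw [comp, indicator_of_notMem hx, add_zero, hp, ENNReal.rpow_natCast]
    have h4 := norm_add (pol_measurable hρ hvm) (hhm.const_mul ε)
    have h5 : (∫⁻ x, pol ρ v x ^ p) ^ (1 / p) = a := by
      rw [ha]
      congr 1
      have := pol_energy (ρ := ρ) hvm (k + 2)
      simpa only [hp, ENNReal.rpow_natCast] using this
    have h6 : (∫⁻ x, (ε * h x) ^ p) ^ (1 / p) = ε * b := by
      have h7 : ∀ x, (ε * h x) ^ p = ε ^ p * h x ^ p := fun x =>
        ENNReal.mul_rpow_of_nonneg _ _ hp0'.le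
      simp only [h7]
      rw [lintegral_const_mul _ (hhm.pow_const p), ENNReal.mul_rpow_of_nonneg _ _ (by positivity),
        ← ENNReal.rpow_mul, mul_one_div_cancel hp0, ENNReal.rpow_one]
    rw [← hp, h5, h6] at h4
    refine h1.trans ?_
    rw [h2]
    calc ∫⁻ x, (pol ρ v x + ε * h x) ^ p
        = ((∫⁻ x, (pol ρ v x + ε * h x) ^ p) ^ (1 / p)) ^ p := by
          rw [← ENNReal.rpow_mul, one_div_mul_cancel hp0, ENNReal.rpow_one]
      _ ≤ (a + ε * b) ^ p := ENNReal.rpow_le_rpow h4 hp0'.le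
      _ = (a + ε * b) ^ (k + 2) := by rw [hp, ENNReal.rpow_natCast]
  -- the limit
  have hlim : Tendsto (fun m : ℕ => (a + ((m : ℝ≥0∞) + 1)⁻¹ * b) ^ (k + 2)) atTop
      (𝓝 ((a + 0 * b) ^ (k + 2))) := by
    have h1 : Tendsto (fun m : ℕ => ((m : ℝ≥0∞) + 1)⁻¹) atTop (𝓝 0) := by
      have := ENNReal.tendsto_inv_nat_nhds_zero.comp (tendsto_add_atTop_nat 1)
      refine this.congr fun m => ?_
      simp
    have h2 : Tendsto (fun m : ℕ => ((m : ℝ≥0∞) + 1)⁻¹ * b) atTop (𝓝 (0 * b)) :=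
      ENNReal.Tendsto.mul_const h1 (Or.inr hbt)
    exact ENNReal.Tendsto.pow (tendsto_const_nhds.add h2)
  rw [zero_mul, add_zero, hapow] at hlim
  refine ge_of_tendsto' hlim fun m => hest _ ?_ ?_
  · simp
  · simp

end Final

end Pool.Agent.Helper56K9.RM
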